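import Pool.Agent.U29.EU.Stm

set_option autoImplicit false

/-!
Project EU, part NBE: the contribution of finitely many near-resonant triads is bounded.
-/

namespace Pool.Agent.U354.EU

open Pool.Agent.N983.RT Pool.Agent.U136.DS Pool.Agent.U29.EU

theorem abs_le_of_mem_cub {R : ℕ} {k : Wv} (h : k ∈ cub R) (i : Fin 3) : |(k i : ℝ)| ≤ R := by
  unfold cub at h
  rw [Fintype.mem_piFinset] at h
  have h1 := h i
  rw [Finset.mem_Icc] at h1
  rw [abs_le]
  constructor
  · have := h1.1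
    have h2 : ((-(R : ℤ) : ℤ) : ℝ) ≤ (k i : ℝ) := by exact_mod_cast this
    simpa using h2
  · exact_mod_cast h1.2

theorem nsq_nonneg' (k : Wv) : 0 ≤ nsq k := by
  unfold nsq
  exact Finset.sum_nonneg fun i _ => sq_nonneg _

theorem nsq_add_le {R : ℕ} {k l : Wv} (hk : k ∈ cub R) (hl : l ∈ cub R) :
    nsq (k + l) ≤ 12 * (R : ℝ) ^ 2 := by
  unfold nsq
  have h1 : ∀ i : Fin 3, (((k + l) i : ℤ) : ℝ) ^ 2 ≤ 4 * (R : ℝ) ^ 2 := by
    intro i
    have hk' := abs_le_of_mem_cub hk i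
    have hl' := abs_le_of_mem_cub hl i
    have h2 : |(((k + l) i : ℤ) : ℝ)| ≤ 2 * R := by
      have : (((k + l) i : ℤ) : ℝ) = (k i : ℝ) + (l i : ℝ) := by
        rw [Pi.add_apply]; push_cast; ring
      rw [this]
      calc |(k i : ℝ) + (l i : ℝ)| ≤ |(k i : ℝ)| + |(l i : ℝ)| := abs_add_le _ _
        _ ≤ 2 * R := by linarith
    have h3 : (((k + l) i : ℤ) : ℝ) ^ 2 ≤ (2 * (R : ℝ)) ^ 2 := by
      rw [← sq_abs]
      exact pow_le_pow_left₀ (abs_nonneg _) h2 2
    linarith [h3]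
  calc ∑ i : Fin 3, (((k + l) i : ℤ) : ℝ) ^ 2 ≤ ∑ _i : Fin 3, 4 * (R : ℝ) ^ 2 :=
        Finset.sum_le_sum fun i _ => h1 i
    _ = 12 * (R : ℝ) ^ 2 := by simp; ring

theorem norm_le_of_En {n : ℕ} {u : Fld} {M : ℝ} (hu : ∀ k, k ∉ cub n → u k = 0)
    (hM : En 0 n u ≤ M) (k : Wv) (i : Fin 3) : ‖u k i‖ ≤ Real.sqrt (max M 0) := by
  by_cases hk : k ∈ cub n
  · apply Real.le_sqrt_of_sq_le
    refine le_trans ?_ (le_trans hM (le_max_left _ _))
    unfold En
    have h1 : ‖u k i‖ ^ 2 ≤ ∑ i, ‖u k i‖ ^ 2 :=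
      Finset.single_le_sum (f := fun i => ‖u k i‖ ^ 2) (fun i _ => sq_nonneg _) (Finset.mem_univ i)
    refine le_trans h1 ?_
    have h2 := Finset.single_le_sum (f := fun k => nsq k ^ 0 * ∑ i, ‖u k i‖ ^ 2)
      (fun k _ => by
        rw [pow_zero, one_mul]
        exact Finset.sum_nonneg fun i _ => sq_nonneg _) hk
    simpa using h2
  · rw [hu k hk]
    simp

theorem near_le (lam : Wv → ℝ) (c₁ τ : ℝ) (k l m : Wv) :
    |near lam c₁ τ k l m| ≤ 1 := by
  unfold near
  split_ifs <;> simp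

open Classical in
theorem sum_ind_le (n R : ℕ) :
    ∑ k ∈ cub n, (if k ∈ cub R then (1 : ℝ) else 0) ≤ ((cub R).card : ℝ) := by
  rw [← Finset.sum_filter]
  rw [Finset.sum_const, nsmul_eq_mul, mul_one]
  exact_mod_cast Finset.card_le_card fun k hk => (Finset.mem_filter.1 hk).2

open Classical in
theorem t_NBE : S_NBE := by
  intro lam c₁ τ hF s M
  obtain ⟨R, hR⟩ := hF
  set S := Real.sqrt (max M 0) with hS
  have hS0 : 0 ≤ S := Real.sqrt_nonneg _
  set B : ℝ := (R : ℝ) * (12 * (R : ℝ) ^ 2) ^ s * S * S * S with hB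
  have hB0 : 0 ≤ B := by positivity
  refine ⟨9 * (((cub R).card : ℝ) * ((cub R).card : ℝ) * B), ?_⟩
  intro n u _ hu hM
  have hn := norm_le_of_En hu hM
  have hterm : ∀ (i j : Fin 3) (k l : Wv),
      ‖(((near lam c₁ τ k l (-(k + l)) * ((l i : ℝ) * nsq (k + l) ^ s) : ℝ)) : ℂ) * u k i * u l j *
        u (-(k + l)) j‖ ≤ (if k ∈ cub R then (1 : ℝ) else 0) * (if l ∈ cub R then (1 : ℝ) else 0) * B := by
    intro i j k l
    by_cases h0 : near lam c₁ τ k l (-(k + l)) = 0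
    · rw [h0]
      simp only [zero_mul, Complex.ofReal_zero, norm_zero]
      split_ifs <;> simp [hB0]
    · obtain ⟨hk, hl⟩ := hR k l h0
      rw [if_pos hk, if_pos hl, one_mul, one_mul]
      rw [norm_mul, norm_mul, norm_mul, Complex.norm_real, Real.norm_eq_abs, abs_mul, abs_mul,
        abs_of_nonneg (pow_nonneg (nsq_nonneg' (k + l)) s)]
      have h1 := near_le lam c₁ τ k l (-(k + l))
      have h2 := abs_le_of_mem_cub hl i
      have h3 : nsq (k + l) ^ s ≤ (12 * (R : ℝ) ^ 2) ^ s :=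
        pow_le_pow_left₀ (nsq_nonneg' _) (nsq_add_le hk hl) s
      have h4 : |near lam c₁ τ k l (-(k + l))| * (|(l i : ℝ)| * nsq (k + l) ^ s) ≤
          (R : ℝ) * (12 * (R : ℝ) ^ 2) ^ s := by
        calc |near lam c₁ τ k l (-(k + l))| * (|(l i : ℝ)| * nsq (k + l) ^ s)
            ≤ 1 * ((R : ℝ) * (12 * (R : ℝ) ^ 2) ^ s) := by
              refine mul_le_mul h1 ?_ ?_ zero_le_one
              · exact mul_le_mul h2 h3 (pow_nonneg (nsq_nonneg' _) s) (Nat.cast_nonneg R)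
              · exact mul_nonneg (abs_nonneg _) (pow_nonneg (nsq_nonneg' _) s)
          _ = _ := one_mul _
      have h5 := hn k i
      have h6 := hn l j
      have h7 := hn (-(k + l)) j
      rw [hB]
      gcongr
  have hTri : ∀ i j : Fin 3, ‖Tri (fun k l => near lam c₁ τ k l (-(k + l)) *
      ((l i : ℝ) * nsq (k + l) ^ s)) n (fun k => u k i) (fun k => u k j) (fun k => u k j)‖ ≤
      ((cub R).card : ℝ) * ((cub R).card : ℝ) * B := by
    intro i j
    unfold Tri
    refine le_trans (norm_sum_le _ _) ?_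
    refine le_trans (Finset.sum_le_sum fun k _ => norm_sum_le _ _) ?_
    refine le_trans (Finset.sum_le_sum fun k _ => Finset.sum_le_sum fun l _ => hterm i j k l) ?_
    have h1 : ∑ k ∈ cub n, ∑ l ∈ cub n, ((if k ∈ cub R then (1 : ℝ) else 0) *
        (if l ∈ cub R then (1 : ℝ) else 0) * B) =
        (∑ k ∈ cub n, (if k ∈ cub R then (1 : ℝ) else 0)) *
        (∑ l ∈ cub n, (if l ∈ cub R then (1 : ℝ) else 0)) * B := by
      rw [Finset.sum_mul_sum, Finset.sum_mul]
      refine Finset.sum_congr rfl fun k _ => ?_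
      rw [Finset.sum_mul]
    rw [h1]
    have h2 := sum_ind_le n R
    have h3 : 0 ≤ ∑ k ∈ cub n, (if k ∈ cub R then (1 : ℝ) else 0) :=
      Finset.sum_nonneg fun k _ => by split_ifs <;> simp
    gcongr
  unfold form
  refine le_trans (norm_sum_le _ _) ?_
  refine le_trans (Finset.sum_le_sum fun i _ => norm_sum_le _ _) ?_
  refine le_trans (Finset.sum_le_sum fun i _ => Finset.sum_le_sum fun j _ => hTri i j) ?_
  simp only [Finset.sum_const, Finset.card_univ, Fintype.card_fin, nsmul_eq_mul]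
  push_cast
  linarith

end Pool.Agent.U354.EU
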